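import Pool.Agent.N805.JG.Stm

/-!
# JG/ORD (subtask 7907 of helper805): one-sided comparison of the products of `(T - x)⁺`
-/

set_option autoImplicit false

open MeasureTheory Filter Topology

namespace Pool.Agent.N887.JG

open Pool.Agent.N805.JG

noncomputable def ind1 (t x : ℝ) : ℝ := if x ≤ t then 1 else 0

noncomputable def ind (I : Finset ℕ) (s x : ℕ → ℝ) : ℝ := if ∀ i ∈ I, x i ≤ s i then 1 else 0

lemma ind1_01 (t x : ℝ) : 0 ≤ ind1 t x ∧ ind1 t x ≤ 1 := by
  unfold ind1; split_ifs <;> norm_num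

lemma ind_01 (I : Finset ℕ) (s x : ℕ → ℝ) : 0 ≤ ind I s x ∧ ind I s x ≤ 1 := by
  unfold ind; split_ifs <;> norm_num

/-- uniformly approximable on `[0, ∞)` by nonnegative combinations of indicators `1[x ≤ t]` -/
def U (g : ℝ → ℝ) : Prop := ∀ η : ℝ, 0 < η → ∃ (β : Type) (_ : Fintype β) (c t : β → ℝ),
  (∀ b, 0 ≤ c b) ∧ ∀ x : ℝ, 0 ≤ x → |g x - ∑ b, c b * ind1 (t b) x| ≤ η

/-- uniformly approximable on the nonnegative sequences by nonnegative combinations of the
indicators of lower orthants -/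
def K (I : Finset ℕ) (f : (ℕ → ℝ) → ℝ) : Prop := ∀ η : ℝ, 0 < η →
  ∃ (β : Type) (_ : Fintype β) (c : β → ℝ) (s : β → ℕ → ℝ),
  (∀ b, 0 ≤ c b) ∧ ∀ x : ℕ → ℝ, (∀ i, 0 ≤ x i) → |f x - ∑ b, c b * ind I (s b) x| ≤ η

lemma tele (g : ℝ → ℝ) (h : ℝ) (m N : ℕ) :
    ∑ k ∈ Finset.range N, (g (k * h) - g ((k + 1 : ℕ) * h)) * (if m ≤ k + 1 then 1 else 0) =
      g ((min (m - 1) N : ℕ) * h) - g (N * h) := by
  induction N with
  | zero => simp
  | succ N ih =>
    rw [Finset.sum_range_succ, ih]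
    by_cases hm : m ≤ N + 1
    · rw [if_pos hm, Nat.min_eq_left (by omega), Nat.min_eq_left (by omega)]
      ring
    · rw [if_neg hm, Nat.min_eq_right (by omega), Nat.min_eq_right (by omega)]
      ring

lemma U_of {g : ℝ → ℝ} {A : ℝ}
    (h1 : ∀ x y, 0 ≤ x → x ≤ y → g y ≤ g x ∧ g x ≤ g y + (y - x))
    (h2 : ∀ x, A ≤ x → g x = 0) : U g := by
  intro η hη
  obtain ⟨N, hN⟩ := exists_nat_ge (A / η)
  have hNA : A ≤ N * η := by rwa [div_le_iff₀ hη] at hN
  refine ⟨Fin N, inferInstance, fun k => g ((k : ℕ) * η) - g (((k : ℕ) + 1 : ℕ) * η),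
    fun k => ((k : ℕ) + 1 : ℕ) * η, ?_, ?_⟩
  · intro k
    have := (h1 ((k : ℕ) * η) (((k : ℕ) + 1 : ℕ) * η) (by positivity)
      (by push_cast; nlinarith)).1
    linarith
  · intro x hx
    have e1 : ∑ k : Fin N, (g ((k : ℕ) * η) - g (((k : ℕ) + 1 : ℕ) * η)) *
        ind1 (((k : ℕ) + 1 : ℕ) * η) x =
        g ((min (⌈x / η⌉₊ - 1) N : ℕ) * η) - g (N * η) := by
      rw [← tele g η ⌈x / η⌉₊ N, Finset.sum_range]
      refine Finset.sum_congr rfl fun k _ => ?_
      congr 1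
      unfold ind1
      refine if_congr ?_ rfl rfl
      rw [Nat.ceil_le, div_le_iff₀ hη]
    rw [e1, h2 _ hNA, sub_zero]
    have e2 : x ≤ (⌈x / η⌉₊ : ℕ) * η := by
      rw [← div_le_iff₀ hη]
      exact Nat.le_ceil _
    have e3 : ((⌈x / η⌉₊ - 1 : ℕ) : ℝ) * η ≤ x := by
      rcases Nat.eq_zero_or_pos ⌈x / η⌉₊ with h0 | h0
      · rw [h0]
        simpa using hx
      · have h3 := Nat.ceil_lt_add_one (div_nonneg hx hη.le)
        rw [Nat.cast_sub h0, ← le_div_iff₀ hη]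
        push_cast
        linarith
    have e4 : x ≤ ((⌈x / η⌉₊ - 1 : ℕ) : ℝ) * η + η := by
      refine e2.trans ?_
      have : ((⌈x / η⌉₊ : ℕ) : ℝ) ≤ ((⌈x / η⌉₊ - 1 : ℕ) : ℝ) + 1 := by
        have : ⌈x / η⌉₊ ≤ (⌈x / η⌉₊ - 1) + 1 := by omega
        exact_mod_cast this
      nlinarith
    generalize ⌈x / η⌉₊ - 1 = m at *
    rcases le_or_gt m N with hm | hm
    · rw [Nat.min_eq_left hm]
      have h3 := h1 (m * η) x (by positivity) e3
      rw [abs_le]
      constructor <;> linarith [h3.1, h3.2]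
    · rw [Nat.min_eq_right hm.le, h2 _ hNA]
      have h3 : (N : ℝ) * η ≤ m * η := by
        have : (N : ℝ) ≤ m := by exact_mod_cast hm.le
        nlinarith
      rw [h2 x (by linarith)]
      simpa using hη.le

lemma U_one (T : ℝ) : U (fun x => max (T - x) 0) := by
  refine U_of (A := T) (fun x y hx hxy => ?_) (fun x hx => ?_)
  · constructor
    · exact max_le_max (by linarith) le_rfl
    · refine max_le ?_ ?_
      · have := le_max_left (T - y) 0
        linarith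
      · have := le_max_right (T - y) 0
        linarith
  · exact max_eq_right (by linarith)

lemma U_two {T T' : ℝ} (h : T ≤ T') : U (fun x => max (T' - x) 0 - max (T - x) 0) := by
  refine U_of (A := T') (fun x y hx hxy => ?_) (fun x hx => ?_)
  · rcases le_total (T' - x) 0 with h1 | h1 <;> rcases le_total (T - x) 0 with h2 | h2 <;>
      rcases le_total (T' - y) 0 with h3 | h3 <;> rcases le_total (T - y) 0 with h4 | h4 <;>
      simp only [h1, h2, h3, h4, max_eq_left, max_eq_right] <;> constructor <;> linarith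
  · rw [max_eq_right (by linarith), max_eq_right (by linarith), sub_zero]

lemma U_bdd {g : ℝ → ℝ} (hg : U g) : ∃ B : ℝ, 0 < B ∧ ∀ x, 0 ≤ x → |g x| ≤ B := by
  obtain ⟨β, _, c, t, hc, h⟩ := hg 1 one_pos
  refine ⟨1 + ∑ b, c b, ?_, fun x hx => ?_⟩
  · have := Finset.sum_nonneg (s := Finset.univ) (fun b _ => hc b)
    linarith
  · have h1 := h x hx
    have h2 : |∑ b, c b * ind1 (t b) x| ≤ ∑ b, c b := by
      rw [abs_of_nonneg (Finset.sum_nonneg fun b _ => mul_nonneg (hc b) (ind1_01 _ _).1)]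
      refine Finset.sum_le_sum fun b _ => ?_
      have := (ind1_01 (t b) x).2
      nlinarith [hc b]
    calc |g x| = |(g x - ∑ b, c b * ind1 (t b) x) + ∑ b, c b * ind1 (t b) x| := by ring_nf
      _ ≤ _ := abs_add_le _ _
      _ ≤ _ := add_le_add h1 h2

lemma K_bdd {I : Finset ℕ} {f : (ℕ → ℝ) → ℝ} (hf : K I f) :
    ∃ B : ℝ, 0 < B ∧ ∀ x : ℕ → ℝ, (∀ i, 0 ≤ x i) → |f x| ≤ B := by
  obtain ⟨β, _, c, s, hc, h⟩ := hf 1 one_pos
  refine ⟨1 + ∑ b, c b, ?_, fun x hx => ?_⟩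
  · have := Finset.sum_nonneg (s := Finset.univ) (fun b _ => hc b)
    linarith
  · have h1 := h x hx
    have h2 : |∑ b, c b * ind I (s b) x| ≤ ∑ b, c b := by
      rw [abs_of_nonneg (Finset.sum_nonneg fun b _ => mul_nonneg (hc b) (ind_01 _ _ _).1)]
      refine Finset.sum_le_sum fun b _ => ?_
      have := (ind_01 I (s b) x).2
      nlinarith [hc b]
    calc |f x| = |(f x - ∑ b, c b * ind I (s b) x) + ∑ b, c b * ind I (s b) x| := by ring_nf
      _ ≤ _ := abs_add_le _ _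
      _ ≤ _ := add_le_add h1 h2

lemma ind_insert {I : Finset ℕ} {a : ℕ} (ha : a ∉ I) (s x : ℕ → ℝ) (t : ℝ) :
    ind (insert a I) (Function.update s a t) x = ind1 t (x a) * ind I s x := by
  unfold ind ind1
  have h : (∀ i ∈ insert a I, x i ≤ Function.update s a t i) ↔ x a ≤ t ∧ ∀ i ∈ I, x i ≤ s i := by
    rw [Finset.forall_mem_insert, Function.update_self]
    refine and_congr_right fun _ => forall₂_congr fun i hi => ?_
    have hia : i ≠ a := fun h => ha (by rwa [h] at hi)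
    rw [Function.update_of_ne hia]
  by_cases h1 : x a ≤ t <;> by_cases h2 : ∀ i ∈ I, x i ≤ s i
  · rw [if_pos (h.2 ⟨h1, h2⟩), if_pos h1, if_pos h2, one_mul]
  · rw [if_neg (fun h3 => h2 (h.1 h3).2), if_neg h2, mul_zero]
  · rw [if_neg (fun h3 => h1 (h.1 h3).1), if_neg h1, zero_mul]
  · rw [if_neg (fun h3 => h1 (h.1 h3).1), if_neg h1, zero_mul]

lemma K_mul {I : Finset ℕ} {f : (ℕ → ℝ) → ℝ} {g : ℝ → ℝ} {a : ℕ} (ha : a ∉ I) (hf : K I f)
    (hg : U g) : K (insert a I) (fun x => g (x a) * f x) := by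
  intro η hη
  obtain ⟨Bf, hBf0, hBf⟩ := K_bdd hf
  obtain ⟨Bg, hBg0, hBg⟩ := U_bdd hg
  obtain ⟨β, _, c, s, hc, h⟩ := hf (η / (2 * (Bg + 1))) (by positivity)
  obtain ⟨γ, _, c', t, hc', h'⟩ := hg (min 1 (η / (2 * Bf))) (by positivity)
  refine ⟨γ × β, inferInstance, fun p => c' p.1 * c p.2,
    fun p => Function.update (s p.2) a (t p.1), fun p => mul_nonneg (hc' _) (hc _), ?_⟩
  intro x hx
  have e1 : ∑ p : γ × β, c' p.1 * c p.2 * ind (insert a I) (Function.update (s p.2) a (t p.1)) x =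
      (∑ b, c' b * ind1 (t b) (x a)) * ∑ b, c b * ind I (s b) x := by
    rw [Finset.sum_mul_sum, Fintype.sum_prod_type]
    refine Finset.sum_congr rfl fun b _ => Finset.sum_congr rfl fun b' _ => ?_
    simp only
    rw [ind_insert ha]
    ring
  simp only
  rw [e1]
  have h1 := h x hx
  have h2 := h' (x a) (hx a)
  have h3 := hBf x hx
  have h4 := hBg (x a) (hx a)
  generalize (∑ b, c' b * ind1 (t b) (x a)) = G at *
  generalize (∑ b, c b * ind I (s b) x) = H at *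
  have h5 : |G| ≤ Bg + 1 := by
    calc |G| = |g (x a) - (g (x a) - G)| := by ring_nf
      _ ≤ |g (x a)| + |g (x a) - G| := abs_sub _ _
      _ ≤ Bg + 1 := add_le_add h4 (h2.trans (min_le_left _ _))
  have h6 : |g (x a) - G| ≤ η / (2 * Bf) := h2.trans (min_le_right _ _)
  calc |g (x a) * f x - G * H| = |(g (x a) - G) * f x + G * (f x - H)| := by ring_nf
    _ ≤ |g (x a) - G| * |f x| + |G| * |f x - H| := by
        refine (abs_add_le _ _).trans ?_
        rw [abs_mul, abs_mul]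
    _ ≤ η / (2 * Bf) * Bf + (Bg + 1) * (η / (2 * (Bg + 1))) := by
        refine add_le_add (mul_le_mul h6 h3 (abs_nonneg _) (by positivity))
          (mul_le_mul h5 h1 (abs_nonneg _) (by positivity))
    _ = η := by
        field_simp
        ring

lemma K_add {I : Finset ℕ} {f f' : (ℕ → ℝ) → ℝ} (hf : K I f) (hf' : K I f') :
    K I (fun x => f x + f' x) := by
  intro η hη
  obtain ⟨β, _, c, s, hc, h⟩ := hf (η / 2) (by positivity)
  obtain ⟨γ, _, c', s', hc', h'⟩ := hf' (η / 2) (by positivity)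
  refine ⟨β ⊕ γ, inferInstance, Sum.elim c c', Sum.elim s s', ?_, fun x hx => ?_⟩
  · rintro (b | b)
    · exact hc b
    · exact hc' b
  · rw [Fintype.sum_sum_type]
    simp only [Sum.elim_inl, Sum.elim_inr]
    have h1 := h x hx
    have h2 := h' x hx
    calc _ = |(f x - ∑ b, c b * ind I (s b) x) + (f' x - ∑ b, c' b * ind I (s' b) x)| := by
          congr 1
          ring
      _ ≤ _ := abs_add_le _ _
      _ ≤ η / 2 + η / 2 := add_le_add h1 h2
      _ = η := by ring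

lemma K_prod (T T' : ℕ → ℝ) (hT : ∀ i, T i ≤ T' i) (I : Finset ℕ) :
    K I (fun x => ∏ i ∈ I, max (T i - x i) 0) ∧
    K I (fun x => ∏ i ∈ I, max (T' i - x i) 0 - ∏ i ∈ I, max (T i - x i) 0) := by
  induction I using Finset.induction_on with
  | empty =>
    constructor
    · intro η hη
      refine ⟨Unit, inferInstance, fun _ => 1, fun _ _ => 0, fun _ => zero_le_one, fun x _ => ?_⟩
      simp only [Finset.prod_empty, ind, Finset.notMem_empty]
      simp [hη.le]
    · intro η hη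
      refine ⟨Unit, inferInstance, fun _ => 0, fun _ _ => 0, fun _ => le_rfl, fun x _ => ?_⟩
      simp [hη.le]
  | insert a I ha ih =>
    obtain ⟨ih1, ih2⟩ := ih
    have h1 := K_mul ha ih1 (U_one (T a))
    have h2 := K_add (K_mul ha ih2 (U_one (T' a))) (K_mul ha ih1 (U_two (hT a)))
    constructor
    · refine Eq.mp ?_ h1
      congr 1
      funext x
      rw [Finset.prod_insert ha]
    · refine Eq.mp ?_ h2
      congr 1
      funext x
      rw [Finset.prod_insert ha, Finset.prod_insert ha]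
      ring

lemma meas_prod (T : ℕ → ℝ) (I : Finset ℕ) :
    Measurable (fun x : ℕ → ℝ => ∏ i ∈ I, max (T i - x i) 0) := by
  refine Finset.measurable_prod _ fun i _ => ?_
  exact (measurable_const.sub (measurable_pi_apply i)).max measurable_const

lemma K_int {I : Finset ℕ} {f : (ℕ → ℝ) → ℝ} (hf : K I f) (hm : Measurable f)
    (μ : Measure (ℕ → ℝ)) [IsProbabilityMeasure μ] (hμ : ∀ i, ∀ᵐ x ∂μ, 0 ≤ x i) :
    Integrable f μ := by
  obtain ⟨B, -, hB⟩ := K_bdd hf
  refine Integrable.of_bound hm.aestronglyMeasurable B ?_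
  filter_upwards [ae_all_iff.2 hμ] with x hx
  exact hB x hx

lemma meas_orth (I : Finset ℕ) (s : ℕ → ℝ) : MeasurableSet {x : ℕ → ℝ | ∀ i ∈ I, x i ≤ s i} := by
  have : {x : ℕ → ℝ | ∀ i ∈ I, x i ≤ s i} = ⋂ i ∈ I, {x : ℕ → ℝ | x i ≤ s i} := by
    ext x
    simp
  rw [this]
  exact Finset.measurableSet_biInter _ fun i _ =>
    measurableSet_le (measurable_pi_apply i) measurable_const

lemma ind_eq (I : Finset ℕ) (s : ℕ → ℝ) :
    ind I s = Set.indicator {x : ℕ → ℝ | ∀ i ∈ I, x i ≤ s i} (fun _ => (1 : ℝ)) := by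
  funext x
  unfold ind
  by_cases h : ∀ i ∈ I, x i ≤ s i
  · rw [if_pos h, Set.indicator_of_mem (show x ∈ {x : ℕ → ℝ | ∀ i ∈ I, x i ≤ s i} from h)]
  · rw [if_neg h, Set.indicator_of_notMem (show x ∉ {x : ℕ → ℝ | ∀ i ∈ I, x i ≤ s i} from h)]

lemma int_ind (I : Finset ℕ) (s : ℕ → ℝ) (μ : Measure (ℕ → ℝ)) [IsProbabilityMeasure μ] :
    Integrable (ind I s) μ ∧ ∫ x, ind I s x ∂μ = F μ I s := by
  rw [ind_eq]
  constructor
  · exact (integrable_const _).indicator (meas_orth I s)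
  · rw [integral_indicator_const _ (meas_orth I s), smul_eq_mul, mul_one]
    rfl

lemma K_approx {I : Finset ℕ} {f : (ℕ → ℝ) → ℝ} (hf : K I f) (hm : Measurable f)
    (μ : Measure (ℕ → ℝ)) [IsProbabilityMeasure μ] (hμ : ∀ i, ∀ᵐ x ∂μ, 0 ≤ x i) {η : ℝ}
    {β : Type} [Fintype β] (c : β → ℝ) (s : β → ℕ → ℝ)
    (h : ∀ x : ℕ → ℝ, (∀ i, 0 ≤ x i) → |f x - ∑ b, c b * ind I (s b) x| ≤ η) :
    |∫ x, f x ∂μ - ∑ b, c b * F μ I (s b)| ≤ η := by
  have h1 : ∑ b, c b * F μ I (s b) = ∫ x, ∑ b, c b * ind I (s b) x ∂μ := by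
    rw [integral_finsetSum _ fun b _ => (int_ind I (s b) μ).1.const_mul _]
    refine Finset.sum_congr rfl fun b _ => ?_
    rw [integral_const_mul, (int_ind I (s b) μ).2]
  have h2 : Integrable (fun x => ∑ b, c b * ind I (s b) x) μ :=
    integrable_finsetSum _ fun b _ => (int_ind I (s b) μ).1.const_mul _
  rw [h1, ← integral_sub (K_int hf hm μ hμ) h2]
  have h3 := norm_integral_le_of_norm_le_const (μ := μ) (C := η)
    (f := fun x => f x - ∑ b, c b * ind I (s b) x) (by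
      filter_upwards [ae_all_iff.2 hμ] with x hx
      exact h x hx)
  rwa [probReal_univ, mul_one] at h3

lemma K_D {ι : Type} {L : Filter ι} {P Q : ι → Measure (ℕ → ℝ)} (hP : Good L P) (hQ : Good L Q)
    {I : Finset ℕ} (hI : ∀ s : ℕ → ℝ, ∀ ε : ℝ, 0 < ε → ∀ᶠ j in L, F (P j) I s ≤ F (Q j) I s + ε)
    {f : (ℕ → ℝ) → ℝ} (hf : K I f) (hm : Measurable f) {ε : ℝ} (hε : 0 < ε) :
    ∀ᶠ j in L, D P Q j f ≤ ε := by
  obtain ⟨β, _, c, s, hc, h⟩ := hf (ε / 4) (by positivity)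
  have hC : 0 ≤ ∑ b, c b := Finset.sum_nonneg fun b _ => hc b
  have h1 : ∀ᶠ j in L, ∀ b, F (P j) I (s b) ≤ F (Q j) I (s b) + ε / (2 * (1 + ∑ b, c b)) :=
    eventually_all.2 fun b => hI (s b) _ (by positivity)
  filter_upwards [h1] with j hj
  have := hP.prob j
  have := hQ.prob j
  have h2 := K_approx hf hm (P j) (hP.nn j) c s h
  have h3 := K_approx hf hm (Q j) (hQ.nn j) c s h
  have h4 : ∑ b, c b * F (P j) I (s b) ≤ ∑ b, c b * F (Q j) I (s b) + ε / 2 := by
    have h5 : ∑ b, c b * F (P j) I (s b) ≤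
        ∑ b, (c b * F (Q j) I (s b) + c b * (ε / (2 * (1 + ∑ b, c b)))) := by
      refine Finset.sum_le_sum fun b _ => ?_
      rw [← mul_add]
      exact mul_le_mul_of_nonneg_left (hj b) (hc b)
    refine h5.trans ?_
    rw [Finset.sum_add_distrib, ← Finset.sum_mul]
    have h6 : (∑ b, c b) * (ε / (2 * (1 + ∑ b, c b))) ≤ ε / 2 := by
      rw [mul_div_assoc', div_le_iff₀ (by positivity)]
      nlinarith
    linarith
  unfold D
  rw [abs_le] at h2 h3
  linarith [h2.1, h2.2, h3.1, h3.2]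

theorem ORD : Pool.Agent.N805.JG.S_ORD := by
  intro ι L P Q hP hQ I hI T T' hT ε hε
  have hK := K_prod T T' (fun i => (hT i).2) I
  have hK' := (K_prod T' T' (fun i => le_rfl) I).1
  have h1 := K_D hP hQ hI hK.2 ((meas_prod T' I).sub (meas_prod T I)) hε
  filter_upwards [h1] with j hj
  have := hP.prob j
  have := hQ.prob j
  refine le_trans (le_of_eq ?_) hj
  unfold D
  rw [integral_sub (K_int hK' (meas_prod T' I) (P j) (hP.nn j))
    (K_int hK.1 (meas_prod T I) (P j) (hP.nn j)),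
    integral_sub (K_int hK' (meas_prod T' I) (Q j) (hQ.nn j))
    (K_int hK.1 (meas_prod T I) (Q j) (hQ.nn j))]
  ring

end Pool.Agent.N887.JG
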